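import Pool.Agent.U30.KL.Main

/-!
# The approximation ratio of `k`-lookahead auctions does not tend to one
-/

namespace Pool.Agent.Results.MP_0f9109_lc.LimitBelowOne

open Pool.Agent.U30.KL Filter Topology

/-- For every `k ≥ 2` the set of ratios is nonempty and bounded below and its infimum `ρ_k` is at
most `e / (1 + e)`; in particular `ρ_k` does not tend to `1`. -/
theorem result :
    (∀ k : ℕ, 2 ≤ k → (ratios k).Nonempty ∧ BddBelow (ratios k) ∧
      rho k ≤ Real.exp 1 / (1 + Real.exp 1)) ∧
    ¬ Tendsto rho atTop (𝓝 1) :=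
  ⟨fun k hk => ⟨ratios_nonempty hk, bddBelow_ratios k, rho_le hk⟩, not_tendsto_one⟩

end Pool.Agent.Results.MP_0f9109_lc.LimitBelowOne
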